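import Pool.Agent.H23.DM.TargetsG
import Pool.Agent.H27.TM.TargetsG

/-!
# (DV) the divisor bound
-/

set_option autoImplicit false

open NumberField NumberField.InfinitePlace Set
open scoped nonZeroDivisors

namespace Pool.Agent.H56.DM.DV

open Pool.Agent.H25.HK Pool.Agent.H23.LB Pool.Agent.H23.LC
open Pool.Agent.H29.DW (wv Pos rv)
open Pool.Agent.H31.SW (DD PP dK)
open Pool.Agent.H27.TM
open Pool.Agent.H23.DM

section

variable {K : Type} [Field K] [NumberField K]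

/-- multiplication and duality -/
theorem du_mul {N₁ N₂ : FI K} (h₁ : N₁ ≠ 0) (h₂ : N₂ ≠ 0) {m ξ : K}
    (hm : ∀ x ∈ N₂, m * x ∈ N₁) (hξ : ξ ∈ du K N₁) : m * ξ ∈ du K N₂ := by
  unfold du at *
  rw [FractionalIdeal.mem_dual h₂]
  intro x hx
  have h3 := (FractionalIdeal.mem_dual (A := ℤ) (K := ℚ) h₁).1 hξ (m * x) (hm x hx)
  rw [Algebra.traceForm_apply] at h3 ⊢
  have h4 : ξ * (m * x) = m * ξ * x := by ring
  rwa [h4] at h3

/-- the multiple of a fractional ideal by an element of an ideal -/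
theorem mul_mem_of {a : Ideal (𝓞 K)} {m : 𝓞 K} (hm : m ∈ a) {N : FI K} {x : K} (hx : x ∈ N) :
    (m : K) * x ∈ (a : FI K) * N :=
  FractionalIdeal.mul_mem_mul ((FractionalIdeal.mem_coeIdeal _).2 ⟨m, hm, rfl⟩) hx

end

theorem pf_DV (hDV : Pool.Agent.H27.TM.M_DV) (hDL : Pool.Agent.H27.TM.M_DL) (hLN : D_LN) :
    D_DV := by
  intro n hn ε hε
  obtain ⟨C₁, hC₁, h1⟩ := hDV n hn ε hε
  obtain ⟨C₂, hC₂, h2⟩ := hDL n hn
  refine ⟨max C₁ C₂, le_trans hC₁ (le_max_left _ _), ?_⟩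
  intro K _ _ hK l k e k' M y ω α A hl hk hM hω hα hke hA
  have he : e ≠ ⊥ := by
    rintro rfl
    exact hk (by rw [hke, Ideal.bot_mul])
  have hk' : k' ≠ ⊥ := by
    rintro rfl
    exact hk (by rw [hke, Ideal.mul_bot])
  have hr : k.radical ≠ ⊥ := fun h => hk (le_bot_iff.1 (h ▸ Ideal.le_radical))
  have hkk' : k ≤ k' := by rw [hke]; exact Ideal.mul_le_right
  have hkr : k ≤ k.radical ⊓ k' := le_inf Ideal.le_radical hkk'
  have hrk : k.radical ⊓ k' ≠ ⊥ := fun h => hk (le_bot_iff.1 (h ▸ hkr))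
  have hle : l * e ≠ ⊥ := mul_ne_zero hl he
  have hlr : l * (k.radical ⊓ k') ≠ ⊥ := mul_ne_zero hl hrk
  obtain ⟨hMz, hNz, -, -, -, -, hjM, -⟩ := hLN K e k.radical k' he hr hk'
  obtain ⟨hL, hDDL⟩ := hjM (l * e) M y hle hM
  obtain ⟨hN, -⟩ := hjM (l * (k.radical ⊓ k')) M y hlr hM
  have hAD : A ⊆ Dl (((l * e : Ideal (𝓞 K)) : FI K) * M) y ω α := fun δ hδ => hA δ hδ
  obtain ⟨hfin, hcard, -⟩ := h2 K hK _ y ω α hL hω hα
  have hAf : A.Finite := hfin.subset hAD
  have hNfle : Nf K (l * e) = Nf K l * Nf K e := by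
    unfold Nf
    rw [map_mul, Nat.cast_mul]
  have hDDL' : DD (((l * e : Ideal (𝓞 K)) : FI K) * M) y = DD M y / (Nf K l * Nf K e) := by
    rw [hDDL, hNfle]
  refine ⟨hAf, ?_⟩
  intro ν
  have hde0 : 0 ≤ de A (du K (((l * (k.radical ⊓ k') : Ideal (𝓞 K)) : FI K) * M)) ν :=
    Nat.cast_nonneg _
  refine ⟨hde0, ?_, ?_⟩
  · have h3 : de A (du K (((l * (k.radical ⊓ k') : Ideal (𝓞 K)) : FI K) * M)) ν ≤
        ((Dl (((l * e : Ideal (𝓞 K)) : FI K) * M) y ω α).ncard : ℝ) := by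
      unfold de
      have h33 : {δ | δ ∈ A ∧
          ν / δ ∈ du K (((l * (k.radical ⊓ k') : Ideal (𝓞 K)) : FI K) * M)} ⊆
          Dl (((l * e : Ideal (𝓞 K)) : FI K) * M) y ω α := fun δ hδ => hAD hδ.1
      exact_mod_cast Set.ncard_le_ncard h33 hfin
    have h4 : 0 ≤ DD (((l * e : Ideal (𝓞 K)) : FI K) * M) y * PP α := by
      by_contra h
      have h5 : C₂ * (DD (((l * e : Ideal (𝓞 K)) : FI K) * M) y * PP α) < 0 :=
        mul_neg_of_pos_of_neg (by linarith) (not_le.1 h)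
      have h6 : (0 : ℝ) ≤ ((Dl (((l * e : Ideal (𝓞 K)) : FI K) * M) y ω α).ncard : ℝ) :=
        Nat.cast_nonneg _
      linarith
    rw [hDDL'] at h4 hcard
    exact h3.trans (hcard.trans (mul_le_mul_of_nonneg_right (le_max_right _ _) h4))
  · intro hν hν0
    set m : ℕ := Ideal.absNorm k with hm
    have hm0 : m ≠ 0 := by
      rw [hm, Ne, Ideal.absNorm_eq_zero_iff]
      exact hk
    have hmk : ((m : ℕ) : 𝓞 K) ∈ k := Ideal.absNorm_mem k
    have hmK : (((m : ℕ) : 𝓞 K) : K) = (m : K) := by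
      simp
    have hmK0 : (m : K) ≠ 0 := by exact_mod_cast hm0
    have hT : ((Ideal.span {(2 : 𝓞 K)} : Ideal (𝓞 K)) : FI K) ≠ 0 := by
      rw [FractionalIdeal.coeIdeal_ne_zero]
      intro h
      rw [Ideal.span_singleton_eq_bot] at h
      exact two_ne_zero h
    -- the number `m ν`
    have hmν : (m : K) * ν ∈ NN K := by
      unfold Pool.Agent.H27.TM.NN
      have hrM : (((k.radical ⊓ k' : Ideal (𝓞 K)) : FI K) * Mz K e) ≠ 0 := by
        refine mul_ne_zero ?_ hMz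
        rw [FractionalIdeal.coeIdeal_ne_zero]
        exact hrk
      refine du_mul hrM hT ?_ hν
      intro x hx
      rw [← hmK]
      refine mul_mem_of (hkr hmk) ?_
      unfold Mz
      have h5 : (1 : K) ∈ ((e : FI K)⁻¹) := by
        have heK : (e : FI K) ≠ 0 := by
          rw [FractionalIdeal.coeIdeal_ne_zero]
          exact he
        rw [FractionalIdeal.mem_inv_iff heK]
        intro z hz
        rw [one_mul]
        exact FractionalIdeal.coeIdeal_le_one hz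
      have h6 := FractionalIdeal.mul_mem_mul hx h5
      rwa [mul_one] at h6
    have hmν0 : (m : K) * ν ≠ 0 := mul_ne_zero hmK0 hν0
    have h7 := h1 K hK _ y ω α ((m : K) * ν) hL hω hα hmν hmν0
    have h8 : de A (du K (((l * (k.radical ⊓ k') : Ideal (𝓞 K)) : FI K) * M)) ν ≤
        dv (((l * e : Ideal (𝓞 K)) : FI K) * M) y ω α ((m : K) * ν) := by
      unfold de dv
      have h9 : {δ | δ ∈ A ∧
          ν / δ ∈ du K (((l * (k.radical ⊓ k') : Ideal (𝓞 K)) : FI K) * M)} ⊆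
          {δ | δ ∈ Dl (((l * e : Ideal (𝓞 K)) : FI K) * M) y ω α ∧
            (m : K) * ν / δ ∈ du K (((l * e : Ideal (𝓞 K)) : FI K) * M)} := by
        rintro δ ⟨hδ, hx⟩
        refine ⟨hAD hδ, ?_⟩
        rw [mul_div_assoc]
        refine du_mul hN hL ?_ hx
        intro x hx
        have h10 : ((l * e : Ideal (𝓞 K)) : FI K) * M ≤ ((l : Ideal (𝓞 K)) : FI K) * M := by
          refine mul_le_mul_left ?_ _
          exact (FractionalIdeal.coeIdeal_le_coeIdeal K).2 Ideal.mul_le_left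
        have h11 := mul_mem_of (N := ((l : Ideal (𝓞 K)) : FI K) * M) (hkr hmk) (h10 hx)
        rw [hmK] at h11
        rwa [← mul_assoc, ← FractionalIdeal.coeIdeal_mul, mul_comm (k.radical ⊓ k') l] at h11
      exact_mod_cast Set.ncard_le_ncard h9 (hfin.subset fun δ hδ => hδ.1)
    have h12 : ∏ v : InfinitePlace K, ‖v.embedding ((m : K) * ν)‖ ^ v.mult =
        Nf K k ^ n * ∏ v : InfinitePlace K, ‖v.embedding ν‖ ^ v.mult := by
      have h13 : ∀ v : InfinitePlace K, ‖v.embedding ((m : K) * ν)‖ ^ v.mult =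
          (m : ℝ) ^ v.mult * ‖v.embedding ν‖ ^ v.mult := by
        intro v
        rw [map_mul, map_natCast, norm_mul, mul_pow, Complex.norm_natCast]
      simp_rw [h13]
      rw [Finset.prod_mul_distrib, Finset.prod_pow_eq_pow_sum, InfinitePlace.sum_mult_eq, hK]
      rfl
    rw [h12] at h7
    have h14 : dK K * (Nf K k ^ n * ∏ v : InfinitePlace K, ‖v.embedding ν‖ ^ v.mult) =
        dK K * Nf K k ^ n * ∏ v : InfinitePlace K, ‖v.embedding ν‖ ^ v.mult := by ring
    rw [h14] at h7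
    refine h8.trans (h7.trans (mul_le_mul_of_nonneg_right (le_max_left _ _) ?_))
    refine Real.rpow_nonneg ?_ _
    refine mul_nonneg (mul_nonneg (abs_nonneg _) (pow_nonneg (Nat.cast_nonneg _) _)) ?_
    exact Finset.prod_nonneg fun v _ => pow_nonneg (norm_nonneg _) _

end Pool.Agent.H56.DM.DV
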